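import Pool.Agent.H86.Lei4

/-!
# Minimal normal subgroups and prime divisors of Leinster groups

`sig G` is the sum of the orders of the normal subgroups of `G`; a finite group is a Leinster group
if `sig G = 2 |G|`. `MinNormal V` says that `V` is a minimal normal subgroup of `G`.

* (1) For a minimal normal subgroup `V` of a Leinster group whose order does not divide `|G/V|`:
  `(|V| + 1) (2 |G/V| - sig (G/V)) ≤ |G/V|`, or `V` has a normal complement and this number is
  `2 |G/V|`.
* (2) For every minimal normal subgroup `V` of a Leinster group, `|V| (|V| + 1) ≤ |G|`, or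
  `|V| (|V| + 1) = 2 |G|` and `G = V × H` with `V` simple and `sig H = 2 |H| - 1`. (3) Converse.
* (4) The Leinster groups with `|G| = |V| (|V| + 1)`.
* (5) The Leinster groups with a prime divisor `p` of the order such that `|G| ≤ p (p + 1)`.
* (6) The odd prime divisors of a group with `sig G = 2 |G| - 1`.
-/

set_option autoImplicit false

namespace Pool.Agent.Helper18.JOINCUT.MinNormalFull

open Subgroup Pool.Agent.H86.Lei

universe u

theorem compl_iff {G : Type u} [Group G] {V : Subgroup G} {H : Subgroup G} :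
    (H ∈ TT V ∧ V ⊔ H = ⊤) ↔ (H.Normal ∧ IsCompl V H) := by
  constructor
  · rintro ⟨⟨h1, h2⟩, h3⟩
    refine ⟨h1, ⟨?_, ?_⟩⟩
    · rw [disjoint_iff, inf_comm]
      exact h2
    · rw [codisjoint_iff]
      exact h3
  · rintro ⟨h1, h2⟩
    refine ⟨⟨h1, ?_⟩, ?_⟩
    · rw [inf_comm]
      exact h2.inf_eq_bot
    · exact h2.sup_eq_top

theorem full :
    -- (1) the general inequality
    (∀ (G : Type u) [Group G] [Finite G] (V : Subgroup G) [V.Normal], MinNormal V →
      ¬ Nat.card V ∣ Nat.card (G ⧸ V) → sig G = 2 * Nat.card G →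
      0 < (2 * Nat.card (G ⧸ V) - sig (G ⧸ V) : ℤ) ∧
      (((Nat.card V : ℤ) + 1) * (2 * Nat.card (G ⧸ V) - sig (G ⧸ V)) ≤ Nat.card (G ⧸ V) ∨
        (((Nat.card V : ℤ) + 1) * (2 * Nat.card (G ⧸ V) - sig (G ⧸ V)) =
          2 * Nat.card (G ⧸ V) ∧ ∃ H : Subgroup G, H.Normal ∧ IsCompl V H))) ∧
    -- (2) the gap for minimal normal subgroups
    (∀ (G : Type u) [Group G] [Finite G] (V : Subgroup G), MinNormal V →
      sig G = 2 * Nat.card G →
      Nat.card V * (Nat.card V + 1) ≤ Nat.card G ∨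
      (Nat.card V * (Nat.card V + 1) = 2 * Nat.card G ∧ IsSimpleGroup V ∧
        ∃ H : Subgroup G, H.Normal ∧ IsCompl V H ∧ sig H + 1 = 2 * Nat.card H)) ∧
    -- (3) the converse
    (∀ (G : Type u) [Group G] [Finite G] (V : Subgroup G), MinNormal V →
      Nat.card V * (Nat.card V + 1) = 2 * Nat.card G →
      (∃ H : Subgroup G, H.Normal ∧ IsCompl V H ∧ sig H + 1 = 2 * Nat.card H) →
      sig G = 2 * Nat.card G) ∧
    -- (4) the second case
    (∀ (G : Type u) [Group G] [Finite G] (V : Subgroup G) [V.Normal], MinNormal V →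
      Nat.card G = Nat.card V * (Nat.card V + 1) →
      (sig G = 2 * Nat.card G ↔
        (∃ H : Subgroup G, H.Normal ∧ IsCompl V H ∧ sig H = 2 * Nat.card V) ∨
        ((¬ ∃ H : Subgroup G, H.Normal ∧ IsCompl V H) ∧ sig (G ⧸ V) = 2 * Nat.card V + 1 ∧
          ∀ M : Subgroup G, M.Normal → V ≤ M → M ≠ ⊤ →
            ∃ N : Subgroup G, N.Normal ∧ V ⊓ N = ⊥ ∧ V ⊔ N = M))) ∧
    -- (5) large prime divisors
    (∀ (G : Type u) [Group G] [Finite G] (p : ℕ), p.Prime → p ∣ Nat.card G →
      Nat.card G ≤ p * (p + 1) →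
      (sig G = 2 * Nat.card G ↔ ∃ (V : Subgroup G) (_ : V.Normal), Nat.card V = p ∧
        ((2 * Nat.card G = p * (p + 1) ∧
            ∃ H : Subgroup G, H.Normal ∧ IsCompl V H ∧ sig H = p) ∨
          (Nat.card G = p * (p + 1) ∧
            ∃ H : Subgroup G, H.Normal ∧ IsCompl V H ∧ sig H = 2 * p) ∨
          (Nat.card G = p * (p + 1) ∧ sig (G ⧸ V) = 2 * p + 1 ∧
            (centralizer (V : Set G)).index = 2 ∧
            (∃ K : Subgroup G, K.Normal ∧ V ⊓ K = ⊥ ∧ V ⊔ K = centralizer (V : Set G)) ∧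
            ∀ M : Subgroup G, M.Normal → V ≤ M → M ≠ ⊤ → M ≤ centralizer (V : Set G))))) ∧
    -- (6) odd prime divisors when `sig G = 2 |G| - 1`
    (∀ (G : Type u) [Group G] [Finite G] (r : ℕ), r.Prime → r ≠ 2 → r ∣ Nat.card G →
      sig G + 1 = 2 * Nat.card G → r * r ≤ Nat.card G) := by
  refine ⟨?_, ?_, ?_, ?_, ?_, ?_⟩
  · intro G _ _ V _ hV hd hL
    obtain ⟨h1, h2⟩ := main1 hV hd hL
    refine ⟨by omega, ?_⟩
    rcases h2 with h | h
    · left
      have h3 : (((Nat.card V + 1) * (2 * Nat.card (G ⧸ V)) : ℕ) : ℤ) ≤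
          ((Nat.card (G ⧸ V) + (Nat.card V + 1) * sig (G ⧸ V) : ℕ) : ℤ) := by
        exact_mod_cast h.1
      push_cast at h3
      linarith
    · right
      obtain ⟨h3, H, hH, hs⟩ := h
      refine ⟨?_, H, compl_iff.1 ⟨hH, hs⟩⟩
      have h4 : (((Nat.card V + 1) * (2 * Nat.card (G ⧸ V)) : ℕ) : ℤ) =
          ((2 * Nat.card (G ⧸ V) + (Nat.card V + 1) * sig (G ⧸ V) : ℕ) : ℤ) := by
        exact_mod_cast h3
      push_cast at h4
      linarith
  · intro G _ _ V hV hL
    rcases gap hV hL with h | ⟨h1, H, hH, hs, h2⟩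
    · exact Or.inl h
    · exact Or.inr ⟨h1, simple_of_compl hV hH hs, H, (compl_iff.1 ⟨hH, hs⟩).1,
        (compl_iff.1 ⟨hH, hs⟩).2, h2⟩
  · rintro G _ _ V hV h1 ⟨H, hH1, hH2, h2⟩
    have h3 : Nat.card G < Nat.card V * (Nat.card V + 1) := by
      have : 0 < Nat.card G := Nat.card_pos
      omega
    obtain ⟨h4, h5⟩ := compl_iff.2 ⟨hH1, hH2⟩
    exact (iff1 hV h3).2 ⟨h1, H, h4, h5, h2⟩
  · intro G _ _ V _ hV heq
    rw [iff2 hV heq]
    constructor
    · rintro (⟨H, hH, hs, h1⟩ | ⟨h1, h2, h3⟩)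
      · exact Or.inl ⟨H, (compl_iff.1 ⟨hH, hs⟩).1, (compl_iff.1 ⟨hH, hs⟩).2, h1⟩
      · refine Or.inr ⟨?_, h2, ?_⟩
        · rintro ⟨H, hH1, hH2⟩
          obtain ⟨h4, h5⟩ := compl_iff.2 ⟨hH1, hH2⟩
          exact h1 ⟨H, h4, h5⟩
        · intro M hM hVM hMt
          obtain ⟨N, hN, hs⟩ := h3 M hM hVM hMt
          exact ⟨N, hN.1, by rw [inf_comm]; exact hN.2, hs⟩
    · rintro (⟨H, hH1, hH2, h1⟩ | ⟨h1, h2, h3⟩)
      · obtain ⟨h4, h5⟩ := compl_iff.2 ⟨hH1, hH2⟩
        exact Or.inl ⟨H, h4, h5, h1⟩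
      · refine Or.inr ⟨?_, h2, ?_⟩
        · rintro ⟨H, hH, hs⟩
          exact h1 ⟨H, compl_iff.1 ⟨hH, hs⟩⟩
        · intro M hM hVM hMt
          obtain ⟨N, hN, hN', hs⟩ := h3 M hM hVM hMt
          exact ⟨N, ⟨hN, by rw [inf_comm]; exact hN'⟩, hs⟩
  · intro G _ _ p hp hd hle
    have hp2 := hp.two_le
    constructor
    · intro hL
      obtain ⟨V, hVn, hVc⟩ := exists_normal hp hd hle hL
      have hV := minNormal_of_prime hp hVn hVc
      refine ⟨V, hVn, hVc, ?_⟩
      rcases gap hV hL with h | ⟨h1, H, hH, hs, h2⟩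
      · rw [hVc] at h
        have heq : Nat.card G = p * (p + 1) := le_antisymm hle h
        have heq' : Nat.card G = Nat.card V * (Nat.card V + 1) := by rw [hVc]; exact heq
        right
        rcases (iff2 hV heq').1 hL with ⟨H, hH, hs, h1⟩ | ⟨h1, h2, h3⟩
        · left
          rw [hVc] at h1
          exact ⟨heq, H, (compl_iff.1 ⟨hH, hs⟩).1, (compl_iff.1 ⟨hH, hs⟩).2, h1⟩
        · right
          rw [hVc] at h2
          have hm : Nat.card (G ⧸ V) = p + 1 := by
            have h4 := card_eq_card_quotient_mul_card_subgroup V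
            rw [heq, hVc] at h4
            apply Nat.eq_of_mul_eq_mul_left hp.pos
            rw [h4]; ring
          have hidx := index_two hp hVc hm h1
          have hMC : ∀ M : Subgroup G, M.Normal → V ≤ M → M ≠ ⊤ →
              M ≤ centralizer (V : Set G) := by
            intro M hM hVM hMt
            obtain ⟨N, hN, hs⟩ := h3 M hM hVM hMt
            rw [← hs]
            exact sup_le (self_le_centralizer hp hVc) (le_centralizer_of_disjoint hN)
          have hCt : centralizer (V : Set G) ≠ ⊤ := by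
            intro h
            rw [h, index_top] at hidx
            omega
          obtain ⟨K, hK, hs⟩ := h3 (centralizer (V : Set G)) inferInstance
            (self_le_centralizer hp hVc) hCt
          exact ⟨heq, h2, hidx, ⟨K, hK.1, by rw [inf_comm]; exact hK.2, hs⟩, hMC⟩
      · left
        rw [hVc] at h1
        refine ⟨h1.symm, H, (compl_iff.1 ⟨hH, hs⟩).1, (compl_iff.1 ⟨hH, hs⟩).2, ?_⟩
        have h3 := card_eq_card_quotient_mul_card_subgroup V
        rw [← (sig_compl hH hs).2, hVc] at h3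
        have h4 : p + 1 = 2 * Nat.card H := by
          apply Nat.eq_of_mul_eq_mul_left hp.pos
          rw [h1, h3]; ring
        omega
    · rintro ⟨V, hVn, hVc, h⟩
      have hV := minNormal_of_prime hp hVn hVc
      rcases h with ⟨h1, H, hH1, hH2, h2⟩ | ⟨h1, H, hH1, hH2, h2⟩ | ⟨h1, h2, h3, ⟨K, hK1, hK2, hK3⟩, h4⟩
      · obtain ⟨h5, h6⟩ := compl_iff.2 ⟨hH1, hH2⟩
        have h3 := card_eq_card_quotient_mul_card_subgroup V
        rw [← (sig_compl h5 h6).2, hVc] at h3
        have h4 : p + 1 = 2 * Nat.card H := by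
          apply Nat.eq_of_mul_eq_mul_left hp.pos
          rw [← h1, h3]; ring
        have h7 : Nat.card G < Nat.card V * (Nat.card V + 1) := by
          rw [hVc]
          have : 0 < Nat.card G := Nat.card_pos
          omega
        rw [iff1 hV h7, hVc]
        exact ⟨h1.symm, H, h5, h6, by omega⟩
      · obtain ⟨h5, h6⟩ := compl_iff.2 ⟨hH1, hH2⟩
        rw [iff2 hV (by rw [hVc]; exact h1)]
        left
        exact ⟨H, h5, h6, by rw [hVc]; exact h2⟩
      · rw [iff2 hV (by rw [hVc]; exact h1)]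
        right
        refine ⟨?_, by rw [hVc]; exact h2, ?_⟩
        · rintro ⟨H, hH, hs⟩
          have h5 : centralizer (V : Set G) = ⊤ := by
            rw [eq_top_iff, ← hs]
            exact sup_le (self_le_centralizer hp hVc) (le_centralizer_of_disjoint hH)
          rw [h5, index_top] at h3
          omega
        · intro M hM hVM hMt
          refine ⟨M ⊓ K, ⟨inferInstance, ?_⟩, ?_⟩
          · rw [inf_assoc, inf_comm K V, hK2, inf_bot_eq]
          · apply le_antisymm
            · exact sup_le hVM inf_le_left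
            · intro x hx
              have h5 : x ∈ V ⊔ K := by
                rw [hK3]
                exact h4 M hM hVM hMt hx
              rw [← SetLike.mem_coe, mul_normal V K] at h5
              obtain ⟨a, ha, b, hb, rfl⟩ := h5
              have h6 : b ∈ M := by
                have h7 : a⁻¹ * (a * b) ∈ M := M.mul_mem (M.inv_mem (hVM ha)) hx
                simpa using h7
              exact mul_mem (mem_sup_left ha) (mem_sup_right ⟨h6, hb⟩)
  · intro G _ _ r hr hr2 hd hA
    exact odd_prime_sq hr hr2 hd hA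

end Pool.Agent.Helper18.JOINCUT.MinNormalFull
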