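import Mathlib
import Pool.Agent.Helper1.BalanceDefs
import Pool.Agent.Helper1.BalanceProof
import Pool.Agent.Helper43.NF.Fin
import Pool.Agent.Helper73.Kept.NFreePosets

/-!
# N-free (series-parallel) posets: the minimal balance constants of the widths one to six, failure
of strict growth, growth in the long run, and all balance constants below `19/45`
-/

set_option autoImplicit false

namespace Pool.Agent.Helper18.JOINCUT.NFreeFailureFull

open Pool.Agent.Helper1.Balance

/-- `x` and `y` are incomparable -/
def Incomp {n : ℕ} (r : Fin n → Fin n → Prop) (x y : Fin n) : Prop := ¬ r x y ∧ ¬ r y x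

/-- `r` is `N`-free: there are no `a < c`, `b < c`, `b < d` with `a, b` incomparable, `c, d`
incomparable and `a, d` incomparable. The finite `N`-free posets are the series-parallel ones. -/
def IsNFree {n : ℕ} (r : Fin n → Fin n → Prop) : Prop :=
  ¬ ∃ a b c d : Fin n, r a c ∧ r b c ∧ r b d ∧ Incomp r a b ∧ Incomp r c d ∧ Incomp r a d

/-- The set of the balance constants of the finite `N`-free posets of width `w`. -/
def balNFree (w : ℕ) : Set ℝ :=
  {d : ℝ | ∃ (n : ℕ) (r : Fin n → Fin n → Prop),
    IsPoset r ∧ IsNFree r ∧ HasWidth r w ∧ d = balance r}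

/-- The infimum of the balance constants of the finite `N`-free posets of width `w`. -/
noncomputable def deltaNFree (w : ℕ) : ℝ := sInf (balNFree w)

/-- `r` is an ordinal sum of blocks with at most `B` elements: the fibres of `f` are the blocks,
and every element of a lower block is below every element of a higher block. -/
def IsSumOfBlocks {n : ℕ} (r : Fin n → Fin n → Prop) (B : ℕ) : Prop :=
  ∃ f : Fin n → ℕ, (∀ a b, f a < f b → r a b) ∧
    ∀ i, (Finset.univ.filter fun a => f a = i).card ≤ B

theorem nf_of {n : ℕ} {r : Fin n → Fin n → Prop} (h : IsNFree r) :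
    Pool.Agent.Helper73.KS.NF r := by
  intro a b c d h1 h2 h3
  by_contra hcon
  push Not at hcon
  exact h ⟨a, b, c, d, h1, h2, h3, hcon.1, hcon.2.1, hcon.2.2⟩

theorem of_nf {n : ℕ} {r : Fin n → Fin n → Prop} (h : Pool.Agent.Helper73.KS.NF r) :
    IsNFree r := by
  rintro ⟨a, b, c, d, h1, h2, h3, h4, h5, h6⟩
  rcases h a b c d h1 h2 h3 with h7 | h7 | h7
  · exact h7.elim h4.1 h4.2
  · exact h7.elim h5.1 h5.2
  · exact h7.elim h6.1 h6.2

theorem bddBelow_set (w : ℕ) : BddBelow (balNFree w) := by
  refine ⟨0, ?_⟩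
  rintro d ⟨n, r, _, _, _, rfl⟩
  exact balance_nonneg r

/-- the minimum -/
theorem delta_eq {w : ℕ} {c : ℝ} (h1 : c ∈ balNFree w) (h2 : ∀ d ∈ balNFree w, c ≤ d) :
    deltaNFree w = c :=
  le_antisymm (csInf_le (bddBelow_set w) h1) (le_csInf ⟨c, h1⟩ h2)

theorem pos_of_width {n : ℕ} {r : Fin n → Fin n → Prop} {w : ℕ} (hw : 1 ≤ w)
    (h : HasWidth r w) : 0 < n := by
  obtain ⟨⟨s, hs, -⟩, -⟩ := h
  have : s.card ≤ Fintype.card (Fin n) := Finset.card_le_univ s
  rw [Fintype.card_fin] at this
  omega

/-! ### width one -/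

theorem width_one : balNFree 1 = {0} := by
  have hz : ∀ (n : ℕ) (r : Fin n → Fin n → Prop), IsPoset r → HasWidth r 1 → balance r = 0 := by
    intro n r hP hw
    refine le_antisymm ?_ (balance_nonneg r)
    unfold balance
    refine Real.sSup_le ?_ le_rfl
    rintro t ⟨x, y, h1, h2, -⟩
    exfalso
    have hxy : x ≠ y := by
      rintro rfl
      exact h1 (hP.1 x)
    have h3 := hw.2 {x, y} (by
      intro a ha b hb hab
      rw [Finset.mem_insert, Finset.mem_singleton] at ha hb
      rcases ha with rfl | rfl <;> rcases hb with rfl | rfl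
      · exact absurd rfl hab
      · exact h1
      · exact h2
      · exact absurd rfl hab)
    rw [Finset.card_pair hxy] at h3
    omega
  ext d
  rw [Set.mem_singleton_iff]
  constructor
  · rintro ⟨n, r, h1, -, h3, rfl⟩
    exact hz n r h1 h3
  · rintro rfl
    refine ⟨1, fun _ _ => True, ?_, ?_, ?_, ?_⟩
    · exact ⟨fun _ => trivial, fun _ _ _ _ _ => trivial, fun a b _ _ => Subsingleton.elim a b⟩
    · rintro ⟨a, b, c, d, _, _, _, h, _, _⟩
      exact h.1 trivial
    · refine ⟨⟨Finset.univ, by simp, ?_⟩, ?_⟩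
      · intro a _ b _ hab
        exact absurd (Subsingleton.elim a b) hab
      · intro s _
        exact (Finset.card_le_univ s).trans (by simp)
    · exact (hz 1 _ ⟨fun _ => trivial, fun _ _ _ _ _ => trivial,
        fun a b _ _ => Subsingleton.elim a b⟩ ⟨⟨Finset.univ, by simp, fun a _ b _ hab =>
          absurd (Subsingleton.elim a b) hab⟩, fun s _ =>
            (Finset.card_le_univ s).trans (by simp)⟩).symm

/-! ### small balance constants -/

open Pool.Agent.NF in
theorem small_cases {w : ℕ} (hw : 1 ≤ w) {l : List (ℕ × ℕ)} (hl : caseK w l = true) {d : ℝ}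
    (hd : d ∈ balNFree w) (hlt : d < 19 / 45) : ∃ p ∈ l, d = (p.1 : ℝ) / p.2 := by
  obtain ⟨n, r, h1, h2, h3, rfl⟩ := hd
  obtain ⟨j, -, k, -, h4, h5, h6, h7⟩ := small_data h1 (nf_of h2) (pos_of_width hw h3) hlt h3
  rw [h7]
  exact caseK_spec hl h4 h5 h6

open Pool.Agent.NF in
theorem large_width {w : ℕ} (hw : 5 ≤ w) : ∀ d ∈ balNFree w, (19 : ℝ) / 45 ≤ d := by
  rintro d ⟨n, r, h1, h2, h3, rfl⟩
  by_contra hc
  push Not at hc
  obtain ⟨j, hj, k, -, h4, -, -, -⟩ :=
    small_data h1 (nf_of h2) (pos_of_width (by omega) h3) hc h3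
  have := wd_le_four j hj
  omega

open Pool.Agent.NF in
/-- words give balance constants -/
theorem word_mem (v : List ℕ) (k w p q : ℕ) (hlt : ∀ i ∈ v, i < 17) (hk : k ∈ v)
    (hmax : ∀ i ∈ v, (ltr i).bn * (ltr k).bd ≤ (ltr k).bn * (ltr i).bd) (hw : mwd v = w)
    (hp : (ltr k).bn = p) (hq : (ltr k).bd = q) : (p : ℝ) / q ∈ balNFree w := by
  obtain ⟨n, r, h1, h2, h3, h4⟩ := word_order hlt hk fun i hi => bc_le_iff.2 (hmax i hi)
  refine ⟨n, r, h1, of_nf h2, by rw [← hw]; exact h3, ?_⟩
  rw [← h4, ← hp, ← hq]
  rfl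

open Pool.Agent.NF in
theorem mem_five : (19 : ℝ) / 45 ∈ balNFree 5 := by
  obtain ⟨n, r, h1, h2, h3, h4⟩ := tree_order (p := 19) (q := 45) (by norm_num) u5
  have hw : Wd B10 = 5 := rfl
  rw [hw] at h3
  refine ⟨n, r, h1, of_nf h2, h3, le_antisymm ?_ (by exact_mod_cast h4)⟩
  exact large_width le_rfl _ ⟨n, r, h1, of_nf h2, h3, rfl⟩

open Pool.Agent.NF in
theorem mem_six : (19 : ℝ) / 45 ∈ balNFree 6 := by
  obtain ⟨n, r, h1, h2, h3, h4⟩ := tree_order (p := 19) (q := 45) (by norm_num) u6
  have hw : Wd w6 = 6 := rfl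
  rw [hw] at h3
  refine ⟨n, r, h1, of_nf h2, h3, le_antisymm ?_ (by exact_mod_cast h4)⟩
  exact large_width (by norm_num) _ ⟨n, r, h1, of_nf h2, h3, rfl⟩

open Pool.Agent.NF in
theorem width_two : balNFree 2 ∩ Set.Iio (19 / 45) = {1 / 3, 2 / 5, 5 / 12} := by
  ext d
  simp only [Set.mem_inter_iff, Set.mem_Iio, Set.mem_insert_iff, Set.mem_singleton_iff]
  constructor
  · rintro ⟨hd, hlt⟩
    obtain ⟨p, hp, rfl⟩ := small_cases (by norm_num) case_two hd hlt
    simp only [List.mem_cons, List.not_mem_nil, or_false] at hp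
    rcases hp with rfl | rfl | rfl <;> norm_num
  · rintro (rfl | rfl | rfl)
    · refine ⟨?_, by norm_num⟩
      have := word_mem [1] 1 2 1 3 (by decide +kernel) (by decide +kernel) (by decide +kernel)
        (by decide +kernel) (by decide +kernel) (by decide +kernel)
      exact_mod_cast this
    · refine ⟨?_, by norm_num⟩
      have := word_mem [2] 2 2 2 5 (by decide +kernel) (by decide +kernel) (by decide +kernel)
        (by decide +kernel) (by decide +kernel) (by decide +kernel)
      exact_mod_cast this
    · refine ⟨?_, by norm_num⟩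
      have := word_mem [11] 11 2 5 12 (by decide +kernel) (by decide +kernel) (by decide +kernel)
        (by decide +kernel) (by decide +kernel) (by decide +kernel)
      exact_mod_cast this

open Pool.Agent.NF in
theorem width_three : balNFree 3 ∩ Set.Iio (19 / 45) =
    {8 / 21, 2 / 5, 11 / 27, 9 / 22, 107 / 260, 26 / 63, 5 / 12, 287 / 680} := by
  ext d
  simp only [Set.mem_inter_iff, Set.mem_Iio, Set.mem_insert_iff, Set.mem_singleton_iff]
  constructor
  · rintro ⟨hd, hlt⟩
    obtain ⟨p, hp, rfl⟩ := small_cases (by norm_num) case_three hd hlt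
    simp only [List.mem_cons, List.not_mem_nil, or_false] at hp
    rcases hp with rfl | rfl | rfl | rfl | rfl | rfl | rfl | rfl <;> norm_num
  · rintro (rfl | rfl | rfl | rfl | rfl | rfl | rfl | rfl)
    · refine ⟨?_, by norm_num⟩
      have := word_mem [5] 5 3 8 21 (by decide +kernel) (by decide +kernel)
        (by decide +kernel) (by decide +kernel) (by decide +kernel) (by decide +kernel)
      exact_mod_cast this
    · refine ⟨?_, by norm_num⟩
      have := word_mem [7] 7 3 2 5 (by decide +kernel) (by decide +kernel)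
        (by decide +kernel) (by decide +kernel) (by decide +kernel) (by decide +kernel)
      exact_mod_cast this
    · refine ⟨?_, by norm_num⟩
      have := word_mem [9] 9 3 11 27 (by decide +kernel) (by decide +kernel)
        (by decide +kernel) (by decide +kernel) (by decide +kernel) (by decide +kernel)
      exact_mod_cast this
    · refine ⟨?_, by norm_num⟩
      have := word_mem [13] 13 3 9 22 (by decide +kernel) (by decide +kernel)
        (by decide +kernel) (by decide +kernel) (by decide +kernel) (by decide +kernel)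
      exact_mod_cast this
    · refine ⟨?_, by norm_num⟩
      have := word_mem [14] 14 3 107 260 (by decide +kernel) (by decide +kernel)
        (by decide +kernel) (by decide +kernel) (by decide +kernel) (by decide +kernel)
      exact_mod_cast this
    · refine ⟨?_, by norm_num⟩
      have := word_mem [6] 6 3 26 63 (by decide +kernel) (by decide +kernel)
        (by decide +kernel) (by decide +kernel) (by decide +kernel) (by decide +kernel)
      exact_mod_cast this
    · refine ⟨?_, by norm_num⟩
      have := word_mem [10] 10 3 5 12 (by decide +kernel) (by decide +kernel)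
        (by decide +kernel) (by decide +kernel) (by decide +kernel) (by decide +kernel)
      exact_mod_cast this
    · refine ⟨?_, by norm_num⟩
      have := word_mem [16] 16 3 287 680 (by decide +kernel) (by decide +kernel)
        (by decide +kernel) (by decide +kernel) (by decide +kernel) (by decide +kernel)
      exact_mod_cast this

open Pool.Agent.NF in
theorem width_four : balNFree 4 ∩ Set.Iio (19 / 45) =
    {178 / 429, 5 / 12, 263 / 630, 287 / 680} := by
  ext d
  simp only [Set.mem_inter_iff, Set.mem_Iio, Set.mem_insert_iff, Set.mem_singleton_iff]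
  constructor
  · rintro ⟨hd, hlt⟩
    obtain ⟨p, hp, rfl⟩ := small_cases (by norm_num) case_four hd hlt
    simp only [List.mem_cons, List.not_mem_nil, or_false] at hp
    rcases hp with rfl | rfl | rfl | rfl <;> norm_num
  · rintro (rfl | rfl | rfl | rfl)
    · refine ⟨?_, by norm_num⟩
      have := word_mem [15] 15 4 178 429 (by decide +kernel) (by decide +kernel)
        (by decide +kernel) (by decide +kernel) (by decide +kernel) (by decide +kernel)
      exact_mod_cast this
    · refine ⟨?_, by norm_num⟩
      have := word_mem [15, 11] 11 4 5 12 (by decide +kernel) (by decide +kernel)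
        (by decide +kernel) (by decide +kernel) (by decide +kernel) (by decide +kernel)
      exact_mod_cast this
    · refine ⟨?_, by norm_num⟩
      have := word_mem [8] 8 4 263 630 (by decide +kernel) (by decide +kernel)
        (by decide +kernel) (by decide +kernel) (by decide +kernel) (by decide +kernel)
      exact_mod_cast this
    · refine ⟨?_, by norm_num⟩
      have := word_mem [15, 16] 16 4 287 680 (by decide +kernel) (by decide +kernel)
        (by decide +kernel) (by decide +kernel) (by decide +kernel) (by decide +kernel)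
      exact_mod_cast this

/-- the minimum of a set which is known below `19 / 45` -/
theorem delta_of {w : ℕ} {c : ℝ} {S : Set ℝ} (hS : balNFree w ∩ Set.Iio (19 / 45) = S)
    (hc : c ∈ S) (hmin : ∀ d ∈ S, c ≤ d) (hlt : c < 19 / 45) : deltaNFree w = c := by
  rw [← hS] at hc
  refine delta_eq hc.1 fun d hd => ?_
  rcases lt_or_ge d (19 / 45) with h | h
  · exact hmin d (by rw [← hS]; exact ⟨hd, h⟩)
  · linarith

theorem delta_two : deltaNFree 2 = 1 / 3 := by
  refine delta_of width_two (by simp) ?_ (by norm_num)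
  rintro d (rfl | rfl | rfl) <;> norm_num

theorem delta_three : deltaNFree 3 = 8 / 21 := by
  refine delta_of width_three (by simp) ?_ (by norm_num)
  rintro d (rfl | rfl | rfl | rfl | rfl | rfl | rfl | rfl) <;> norm_num

theorem delta_four : deltaNFree 4 = 178 / 429 := by
  refine delta_of width_four (by simp) ?_ (by norm_num)
  rintro d (rfl | rfl | rfl | rfl) <;> norm_num

theorem delta_five : deltaNFree 5 = 19 / 45 := delta_eq mem_five (large_width le_rfl)

theorem delta_six : deltaNFree 6 = 19 / 45 := delta_eq mem_six (large_width (by norm_num))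

/-- **N-free posets.** Let `balNFree w` be the set of the balance constants of the finite `N`-free
posets of width `w` and `deltaNFree w` its infimum.
* `deltaNFree 1, …, deltaNFree 6` are `0`, `1/3`, `8/21`, `178/429`, `19/45`, `19/45`; so
  `deltaNFree w < deltaNFree (w + 1)` fails for `w = 5`;
* in the long run there is growth: for every `w` one has `deltaNFree w < deltaNFree w'` for all
  large `w'`, and `deltaNFree w → 1/2`;
* all members of the sets `balNFree w` below `19/45` are listed; there are none for `w ≥ 5`, and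
  `19/45` itself belongs to `balNFree 5` and to `balNFree 6`;
* an `N`-free poset with balance constant below `19/45` is an ordinal sum of blocks with at most
  `17` elements; for every `ε > 0` the same holds for balance constants at most `1/2 - ε`, with
  some bound `B`, and only finitely many numbers `≤ 1/2 - ε` are balance constants of finite
  `N`-free posets. -/
theorem full :
    (deltaNFree 1 = 0 ∧ deltaNFree 2 = 1 / 3 ∧ deltaNFree 3 = 8 / 21 ∧
      deltaNFree 4 = 178 / 429 ∧ deltaNFree 5 = 19 / 45 ∧ deltaNFree 6 = 19 / 45) ∧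
    (¬ ∀ w : ℕ, 2 ≤ w → deltaNFree w < deltaNFree (w + 1)) ∧
    (∀ w : ℕ, ∃ W : ℕ, ∀ w' : ℕ, W ≤ w' → deltaNFree w < deltaNFree w') ∧
    Filter.Tendsto deltaNFree Filter.atTop (nhds (1 / 2)) ∧
    balNFree 1 = {0} ∧
    balNFree 2 ∩ Set.Iio (19 / 45) = {1 / 3, 2 / 5, 5 / 12} ∧
    balNFree 3 ∩ Set.Iio (19 / 45) =
      {8 / 21, 2 / 5, 11 / 27, 9 / 22, 107 / 260, 26 / 63, 5 / 12, 287 / 680} ∧
    balNFree 4 ∩ Set.Iio (19 / 45) = {178 / 429, 5 / 12, 263 / 630, 287 / 680} ∧
    (∀ w : ℕ, 5 ≤ w → balNFree w ∩ Set.Iio (19 / 45) = ∅) ∧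
    ((19 : ℝ) / 45 ∈ balNFree 5 ∧ (19 : ℝ) / 45 ∈ balNFree 6) ∧
    (∀ (n : ℕ) (r : Fin n → Fin n → Prop),
      IsPoset r → IsNFree r → balance r < 19 / 45 → IsSumOfBlocks r 17) ∧
    (∀ ε : ℝ, 0 < ε → ∃ B : ℕ, ∀ (n : ℕ) (r : Fin n → Fin n → Prop),
      IsPoset r → IsNFree r → balance r ≤ 1 / 2 - ε → IsSumOfBlocks r B) ∧
    (∀ ε : ℝ, 0 < ε → {d : ℝ | d ≤ 1 / 2 - ε ∧
      ∃ (n : ℕ) (r : Fin n → Fin n → Prop), IsPoset r ∧ IsNFree r ∧ d = balance r}.Finite) := by
  obtain ⟨g1, g2, -, g4, -, g6⟩ := Pool.Agent.Helper73.Kept.NFreePosets.result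
  refine ⟨⟨?_, delta_two, delta_three, delta_four, delta_five, delta_six⟩, ?_, g4, g6, width_one,
    width_two, width_three, width_four, ?_, ⟨mem_five, mem_six⟩, ?_, g1, g2⟩
  · refine delta_eq (by rw [width_one]; rfl) fun d hd => ?_
    rw [width_one] at hd
    exact hd.ge
  · intro h
    have := h 5 (by norm_num)
    rw [delta_five, delta_six] at this
    exact lt_irrefl _ this
  · intro w hw
    ext d
    simp only [Set.mem_inter_iff, Set.mem_Iio, Set.mem_empty_iff_false, iff_false, not_and, not_lt]
    exact large_width hw d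
  · intro n r h1 h2 h3
    exact Pool.Agent.NF.sum_of_blocks h1 (nf_of h2) h3

end Pool.Agent.Helper18.JOINCUT.NFreeFailureFull
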